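import Pool.Agent.Helper91.RAT.Rc
import Pool.Agent.Helper75.MX.Typ

/-! The numbers `G(c, r) = h(y_r | A, kappa_c)`: monotone and Lipschitz in `r`, the increments decrease with `c`, right
continuous in `c`. -/

set_option autoImplicit false

namespace Pool.Agent.Helper91.RAT

open Finset Filter Topology Matrix Pool.Agent.Helper69.RK Pool.Agent.Helper31.EC Pool.Agent.Helper31.EC.Sp
open Pool.Agent.Helper40.EL Pool.Agent.Helper89.LX Pool.Agent.Helper3.LF Pool.Agent.Helper95.LF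
open Pool.Agent.Helper84.MT

noncomputable section

variable {S : Sp} {M : ℕ} {E : ℕ → ℕ} {ι : Type} [Countable ι] {p : ℕ}

/-- `h(y_r | A, kappa_c)` -/
def gcr (s : MSys S M E ι) (y : S.VV p) (A : S.L) (c r : ℝ) : ℝ := h (up1 (s.kap c) (y.dg r)) (up1 (s.kap c) A)

theorem gcr_eq (s : MSys S M E ι) (y : S.VV p) (A : S.L) {c : ℝ} (r : ℝ) {l : Lab S} (hl : s.IsKap c l) :
    h (up1 l (y.dg r)) (up1 l A) = gcr s y A c r := hl.h_eq (s.kap_isKap c) _ _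

/-- increments over a label -/
theorem inc_eq (l : Lab S) (y : S.VV p) (A : S.L) {a b : ℝ} (hab : a ≤ b) :
    h (up1 l (y.dg b)) (up1 l A) - h (up1 l (y.dg a)) (up1 l A) = h (up1 l (y.dg b)) (up1 l (y.dg a ⊔ A)) := by
  have h1 : y.dg b = y.dg a ⊔ y.dg b := (sup_eq_right.mpr (y.dg_mono hab)).symm
  have h2 : h (up1 l (y.dg a ⊔ y.dg b)) (up1 l A) =
      h (up1 l (y.dg a)) (up1 l A) + h (up1 l (y.dg b)) (up1 l A ⊔ up1 l (y.dg a)) := by
    rw [up1_sup]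
    have h3 := h_chain (up1 l (y.dg a)) (up1 l (y.dg b)) (up1 l A)
    rw [h3, sup_comm (up1 l A)]
  rw [← h1] at h2
  rw [h2, up1_sup, sup_comm (up1 l A)]
  ring

theorem gcr_sub (s : MSys S M E ι) (y : S.VV p) (A : S.L) (c : ℝ) {a b : ℝ} (hab : a ≤ b) :
    gcr s y A c b - gcr s y A c a = h (up1 (s.kap c) (y.dg b)) (up1 (s.kap c) (y.dg a ⊔ A)) :=
  inc_eq _ y A hab

theorem gcr_inc (s : MSys S M E ι) (y : S.VV p) (A : S.L) (c : ℝ) {a b : ℝ} (hab : a ≤ b) :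
    0 ≤ gcr s y A c b - gcr s y A c a ∧ gcr s y A c b - gcr s y A c a ≤ p * (b - a) := by
  rw [gcr_sub s y A c hab]
  refine ⟨h_nonneg _ _, ?_⟩
  have h1 : h (up1 (s.kap c) (y.dg b)) (up1 (s.kap c) (y.dg a ⊔ A)) ≤
      h (up1 (s.kap c) (y.dg b)) (up1 (s.kap c) (y.dg a)) := h_anti (up1_mono _ le_sup_left)
  exact h1.trans ((h_up1_le _ _ _).trans (y.h_dg_dg hab))

theorem gcr_anti (s : MSys S M E ι) (y : S.VV p) (A : S.L) {c c' : ℝ} (hc : c ≤ c') {a b : ℝ} (hab : a ≤ b) :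
    gcr s y A c' b - gcr s y A c' a ≤ gcr s y A c b - gcr s y A c a := by
  rw [gcr_sub s y A c hab, gcr_sub s y A c' hab]
  exact h_anti_win hc (s.kap_isKap c).1 (s.kap_isKap c') _ _

theorem gcr_nonneg (s : MSys S M E ι) (y : S.VV p) (A : S.L) (c r : ℝ) : 0 ≤ gcr s y A c r := h_nonneg _ _

theorem gcr_zero (s : MSys S M E ι) (y : S.VV p) (A : S.L) (c : ℝ) : gcr s y A c 0 = 0 := by
  have h1 : h (up1 (s.kap c) (y.dg 0)) (up1 (s.kap c) A) ≤ h (y.dg 0) A := h_up1_le _ _ _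
  rw [y.dg_nonpos le_rfl] at h1
  have h2 : h (⊥ : S.L) A = 0 := h_zero bot_le
  have h3 := gcr_nonneg s y A c 0
  unfold gcr at h3 ⊢
  rw [y.dg_nonpos le_rfl] at h3 ⊢
  linarith

theorem gcr_right (s : MSys S M E ι) (c : ℝ) {ε : ℝ} (hε : 0 < ε) :
    ∃ δ : ℝ, 0 < δ ∧ ∀ c', c ≤ c' → c' < c + δ → ∀ {p : ℕ} (y : S.VV p) (A : S.L) (r : ℝ),
      gcr s y A c' r ≤ gcr s y A c r ∧ gcr s y A c r - ε ≤ gcr s y A c' r := by
  obtain ⟨δ, hδ, h⟩ := h_right s c hε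
  exact ⟨δ, hδ, fun c' a b _ y A r => h c' a b _ _ (s.kap_isKap c) (s.kap_isKap c') _ _⟩

/-- the family of `helper75` from a depth `eta` -/
theorem fam_of (s : MSys S M E ι) (y : S.VV 1) (A : S.L) {η : ℝ → ℝ} {C : ℝ} (hC : 0 < C)
    (hm : MonotoneOn η (Set.Icc 0 C)) (h0 : η 0 = 0) (h1 : η C = 1)
    (hr : ∀ c ∈ Set.Ico (0 : ℝ) C, ContinuousWithinAt η (Set.Ici c) c) :
    Pool.Agent.Helper75.MX.Fam η (gcr s y A) C where
  hC := hC
  mono := hm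
  η0 := h0
  ηC := h1
  rc := hr
  inc := fun c _ a b _ hab _ => by
    have h2 := gcr_inc s y A c hab
    rw [Nat.cast_one, one_mul] at h2
    exact h2
  anti := fun c _ c' _ hcc a b _ hab _ => gcr_anti s y A hcc hab

end

end Pool.Agent.Helper91.RAT
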