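import Pool.Agent.Helper26.MT.Zn

/-! RIGHT CONTINUITY IN THE WINDOW (multi-type layer): the information of `kappa_c`, the entropies over `kappa_c` and
the volume of the canonical form are right continuous in `c` and monotone. -/

set_option autoImplicit false

namespace Pool.Agent.Helper91.RAT

open Finset Filter Topology Matrix Pool.Agent.Helper69.RK Pool.Agent.Helper31.EC Pool.Agent.Helper31.EC.Sp
open Pool.Agent.Helper40.EL Pool.Agent.Helper89.LX Pool.Agent.Helper3.LF Pool.Agent.Helper95.LF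
open Pool.Agent.Helper84.MT

noncomputable section

variable {S : Sp} {M : ℕ} {E : ℕ → ℕ} {ι : Type}

/-! ### labels -/

/-- leaks at a coarser condition -/
theorem leak_part {A B : Part S} {a : ℝ} (hAB : ∀ᶠ k in UF, h (B k) (A k) ≤ a * (S.F k).n) :
    ∀ᶠ k in UF, ∀ l : FLab (S.F k), l.leak (A k) ≤ l.leak (B k) + a * (S.F k).n := by
  filter_upwards [hAB] with k hk l
  have := l.leak_le_leak (A k) (B k)
  linarith

/-- the entropy of the window `c'` given the window `c` -/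
theorem win_h {Q : S.VV M} (L : Leaf S Q E) {c c' δ : ℝ} (hc : c ≤ c') (hδ : 0 < δ) :
    ∀ᶠ k in UF, h (L.win c' k) (L.win c k) ≤ (L.e * (c' - c) + δ) * (S.F k).n := by
  have h1 : hr (rpI (L.Y.bdd c').toInf) (rpI (L.Y.bdd c).toInf) ≤ L.e * (c' - c) := by
    rw [hr_rpI]
    have h2 := L.Y.h_dg_dg hc
    have e1 : L.Y.dg c' = Sp.cl (L.Y.bdd c').toInf := io_eq (L.Y.bdd c')
    have e2 : L.Y.dg c = Sp.cl (L.Y.bdd c).toInf := io_eq (L.Y.bdd c)
    rw [← e1, ← e2]
    exact h2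
  have h3 := (rpI_Bd (L.Y.bdd c').toInf).tendsto (rpI (L.Y.bdd c).toInf)
  filter_upwards [h3.eventually (gt_mem_nhds (show hr (rpI (L.Y.bdd c').toInf) (rpI (L.Y.bdd c).toInf) <
    L.e * (c' - c) + δ by linarith))] with k hk
  have hn := (S.F k).pos
  rw [div_lt_iff₀ hn] at hk
  refine le_trans ?_ hk.le
  have e1 : ∀ c, L.win c k = fc (L.La k) ⊔ fc (Setoid.ker (L.Y.cellv c k)) := fun c =>
    fc_inf (L.La k) (Setoid.ker (L.Y.cellv c k))
  rw [e1, e1]
  have h4 := h_sup_le (fc (L.La k)) (fc (Setoid.ker (L.Y.cellv c' k)))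
    (fc (L.La k) ⊔ fc (Setoid.ker (L.Y.cellv c k)))
  rw [h_zero (le_sup_left : fc (L.La k) ≤ fc (L.La k) ⊔ fc (Setoid.ker (L.Y.cellv c k))), zero_add] at h4
  exact h4.trans (h_anti le_sup_right)

/-- leaks when the window is made smaller -/
theorem leak_win (s : MSys S M E ι) (i : Option ι) {c c' δ : ℝ} (hc : c ≤ c') (hδ : 0 < δ) :
    ∀ᶠ k in UF, ∀ l : FLab (S.F k), l.leak (s.cnd c i k) ≤
      l.leak (s.cnd c' i k) + (E 0 * (c' - c) + δ) * (S.F k).n := by
  rcases i with _ | i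
  · refine Eventually.of_forall fun k l => ?_
    have h1 : s.cnd c none = s.cnd c' none := rfl
    rw [h1]
    have h2 : 0 ≤ (E 0 * (c' - c) + δ) * (S.F k).n :=
      mul_nonneg (add_nonneg (mul_nonneg (Nat.cast_nonneg _) (sub_nonneg.mpr hc)) hδ.le) (S.F k).pos.le
    linarith
  · have h1 := leak_part (win_h (s.lf i) hc hδ)
    filter_upwards [h1] with k hk l
    refine (hk l).trans ?_
    have h2 : ((s.lf i).e : ℝ) ≤ E 0 := by exact_mod_cast (s.lf i).he
    have h3 : ((s.lf i).e : ℝ) * (c' - c) ≤ E 0 * (c' - c) := mul_le_mul_of_nonneg_right h2 (sub_nonneg.mpr hc)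
    have h4 := mul_le_mul_of_nonneg_right (add_le_add h3 (le_refl δ)) (S.F k).pos.le
    exact add_le_add le_rfl h4

/-! ### entropies over a join -/

/-- conditional entropies over a join are smaller -/
theorem h_join (l l' : Lab S) (X Y : S.L) :
    h (up1 (l.join l') X) (up1 (l.join l') Y) ≤ h (up1 l X) (up1 l Y) := by
  rw [(l.join l').hr_upL, l.hr_upL, div_one, div_one]
  have hu : ∀ l0 : Lab S, UB (fun k => h ((l0 k).p.map (rp X k)) ((l0 k).p.map (rp Y k) ⊔ (l0 k).v) / (S.F k).n) := by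
    intro l0
    refine UB.sandwich (UB_const 0) ((rp_Bd X).ub (fun _ => ⊥)) ?_ ?_
    · exact Eventually.of_forall fun k => div_nonneg (h_nonneg _ _) (S.F k).pos.le
    · refine Eventually.of_forall fun k => div_le_div_of_nonneg_right ?_ (S.F k).pos.le
      rw [h_bot, ← (l0 k).p.H_map]
      exact h_le_H _ _
  refine ul_mono (hu _) (hu _) (Eventually.of_forall fun k => div_le_div_of_nonneg_right ?_ (S.F k).pos.le)
  have e1 : ∀ x, ((l.join l') k).p.map x = ((l k).am (l' k)).p1.map ((l k).p.map x) := fun x =>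
    (l k).join_map (l' k) x
  have e2 : ((l.join l') k).v = ((l k).am (l' k)).p1.map (l k).v ⊔ ((l k).am (l' k)).p2.map (l' k).v :=
    (l k).join_v (l' k)
  rw [e1, e1, e2, ← ((l k).am (l' k)).p1.h_map, ((l k).am (l' k)).p1.map_sup]
  exact h_anti (sup_le_sup_left le_sup_left _)

/-- entropies over a join: the loss is at most the new information -/
theorem H_join_ge (l l' : Lab S) (hu1 : UB (fun k => ((l.join l') k).info / (S.F k).n))
    (hu2 : UB (fun k => (l k).info / (S.F k).n)) (X : S.L) :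
    H (up1 l X) - ((l.join l').info - l.info) ≤ H (up1 (l.join l') X) := by
  rw [(l.join l').H_upL, l.H_upL, div_one, div_one]
  have hu : ∀ l0 : Lab S, UB (fun k => h ((l0 k).p.map (rp X k)) (l0 k).v / (S.F k).n) := by
    intro l0
    refine UB.sandwich (UB_const 0) ((rp_Bd X).ub (fun _ => ⊥)) ?_ ?_
    · exact Eventually.of_forall fun k => div_nonneg (h_nonneg _ _) (S.F k).pos.le
    · refine Eventually.of_forall fun k => div_le_div_of_nonneg_right ?_ (S.F k).pos.le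
      rw [h_bot, ← (l0 k).p.H_map]
      exact h_le_H _ _
  unfold Lab.info
  rw [← ul_sub hu1 hu2, ← ul_sub (hu l) (hu1.sub hu2)]
  refine ul_mono ((hu l).sub (hu1.sub hu2)) (hu _) (Eventually.of_forall fun k => ?_)
  have hn := (S.F k).pos
  rw [← sub_div, ← sub_div]
  apply div_le_div_of_nonneg_right _ hn.le
  have e0 : ((l.join l') k).info = (l k).info + I (((l k).am (l' k)).p2.map (l' k).v)
      (((l k).am (l' k)).p1.map (l k).p.top) (((l k).am (l' k)).p1.map (l k).v) := (l k).join_info (l' k)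
  have e1 : ((l.join l') k).p.map (rp X k) = ((l k).am (l' k)).p1.map ((l k).p.map (rp X k)) :=
    (l k).join_map (l' k) _
  have e2 : ((l.join l') k).v = ((l k).am (l' k)).p1.map (l k).v ⊔ ((l k).am (l' k)).p2.map (l' k).v :=
    (l k).join_v (l' k)
  rw [e0, e1, e2]
  set D := (l k).am (l' k) with hD
  have e3 : h ((l k).p.map (rp X k)) (l k).v = h (D.p1.map ((l k).p.map (rp X k))) (D.p1.map (l k).v) :=
    (D.p1.h_map _ _).symm
  rw [e3]
  have h4 := I_eq (D.p1.map ((l k).p.map (rp X k))) (D.p2.map (l' k).v) (D.p1.map (l k).v)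
  have h5 : I (D.p1.map ((l k).p.map (rp X k))) (D.p2.map (l' k).v) (D.p1.map (l k).v) ≤
      I (D.p2.map (l' k).v) (D.p1.map (l k).p.top) (D.p1.map (l k).v) := by
    rw [I_comm]
    exact I_mono_right ((D.p1.map_mono ((l k).p.map_le_top _)).trans le_sup_left)
  rw [sup_comm (D.p2.map (l' k).v)] at h4
  have h6 : h (D.p1.map ((l k).p.map (rp X k))) (D.p1.map (l k).v) -
      ((l k).info + I (D.p2.map (l' k).v) (D.p1.map (l k).p.top) (D.p1.map (l k).v) - (l k).info) ≤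
      h (D.p1.map ((l k).p.map (rp X k))) (D.p1.map (l k).v ⊔ D.p2.map (l' k).v) := by linarith
  exact h6

/-! ### labels of two windows -/

section
variable {s : MSys S M E ι} {c c' : ℝ} {l l' : Lab S}

theorem DMc.info_UB {l : Lab S} (hl : s.DMc c l) : UB (fun k => (l k).info / (S.F k).n) :=
  Lab.DMf.ub hl (i := none) (pcd_Bd s.Q)

/-- the join of a label `kappa_c` with a label `kappa_(c')` -/
theorem IsKap.join (hc : c ≤ c') (hl : s.DMc c l) (hl' : s.IsKap c' l') : s.IsKap c' (l.join l') := by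
  have h1 : s.DMc c' (l.join l') := Lab.DMf.join (MSys.DMc.mono hc hl) hl'.1
  refine ⟨h1, fun l2 h2 => (hl'.2 l2 h2).trans ?_⟩
  exact ul_mono (DMc.info_UB hl'.1) (DMc.info_UB h1) (Eventually.of_forall fun k =>
    div_le_div_of_nonneg_right ((l k).join_info_ge_right (l' k)) (S.F k).pos.le)

/-- conditional entropies decrease with the window -/
theorem h_anti_win (hc : c ≤ c') (hl : s.DMc c l) (hl' : s.IsKap c' l') (X Y : S.L) :
    h (up1 l' X) (up1 l' Y) ≤ h (up1 l X) (up1 l Y) := by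
  rw [hl'.h_eq (IsKap.join hc hl hl')]
  exact h_join l l' X Y

theorem H_anti_win (hc : c ≤ c') (hl : s.DMc c l) (hl' : s.IsKap c' l') (X : S.L) :
    H (up1 l' X) ≤ H (up1 l X) := hl'.H_le (MSys.DMc.mono hc hl) X

/-- the loss is at most the difference of the informations -/
theorem H_win_ge (hc : c ≤ c') (hl : s.DMc c l) (hl' : s.IsKap c' l') (X : S.L) :
    H (up1 l X) - (l'.info - l.info) ≤ H (up1 l' X) := by
  have hj := IsKap.join hc hl hl'
  rw [hl'.H_eq hj]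
  have h1 := H_join_ge l l' (DMc.info_UB hj.1) (DMc.info_UB hl) X
  have h2 : (l.join l').info ≤ l'.info := hl'.2 _ hj.1
  linarith

theorem h_win_ge (hc : c ≤ c') (hl : s.DMc c l) (hl' : s.IsKap c' l') (X Y : S.L) :
    h (up1 l X) (up1 l Y) - (l'.info - l.info) ≤ h (up1 l' X) (up1 l' Y) := by
  have h1 : h (up1 l X) (up1 l Y) = H (up1 l X ⊔ up1 l Y) - H (up1 l Y) := rfl
  have h2 : h (up1 l' X) (up1 l' Y) = H (up1 l' X ⊔ up1 l' Y) - H (up1 l' Y) := rfl
  rw [h1, h2, ← up1_sup, ← up1_sup]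
  have h3 := H_win_ge hc hl hl' (X ⊔ Y)
  have h4 := H_anti_win hc hl hl' Y
  linarith

end

/-! ### right continuity -/

/-- RIGHT CONTINUITY of the information of `kappa_c` -/
theorem info_right [Countable ι] (s : MSys S M E ι) (c : ℝ) {ε : ℝ} (hε : 0 < ε) :
    ∃ δ : ℝ, 0 < δ ∧ ∀ c', c ≤ c' → c' < c + δ → ∀ l l' : Lab S, s.IsKap c l → s.IsKap c' l' →
      l'.info ≤ l.info + ε := by
  by_contra hcon
  push Not at hcon
  have h1 : ∀ j : ℕ, ∃ c' : ℝ, c ≤ c' ∧ c' < c + 1 / ((j : ℝ) + 1) ∧ ∃ l l' : Lab S, s.IsKap c l ∧ s.IsKap c' l' ∧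
      l.info + ε < l'.info := by
    intro j
    obtain ⟨c', a, b, l, l', d, e, f⟩ := hcon (1 / ((j : ℝ) + 1)) (by positivity)
    exact ⟨c', a, b, l, l', d, e, f⟩
  choose c' hc1 hc2 l l' hl hl' hlt using h1
  have hinfo : ∀ j, (s.kap c).info = (l j).info := fun j =>
    le_antisymm ((hl j).2 _ (s.kap_isKap c).1) ((s.kap_isKap c).2 _ (hl j).1)
  have hE : (0 : ℝ) ≤ E 0 := Nat.cast_nonneg _
  have h0 : Tendsto (fun j : ℕ => ((E 0 : ℝ) + 2) * (1 / ((j : ℝ) + 1))) atTop (𝓝 0) := by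
    have := (tendsto_one_div_add_atTop_nhds_zero_nat (𝕜 := ℝ)).const_mul ((E 0 : ℝ) + 2)
    rwa [mul_zero] at this
  obtain ⟨y, hy, hyi⟩ := Lab.approxf (A := s.cnd c) (i₀ := none) (pcd_Bd s.Q) l'
    (fun j => ((E 0 : ℝ) + 2) * (1 / ((j : ℝ) + 1))) h0 ((s.kap c).info + ε) (by
      intro i
      refine Eventually.of_forall fun j => ?_
      have hj : (0 : ℝ) < 1 / ((j : ℝ) + 1) := by positivity
      filter_upwards [leak_win s i (hc1 j) hj, ((hl' j).1 i).eventually (gt_mem_nhds hj)] with k a b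
      have hn := (S.F k).pos
      rw [div_lt_iff₀ hn] at b
      rw [div_le_iff₀ hn]
      refine (a (l' j k)).trans ?_
      have h2 : (E 0 : ℝ) * (c' j - c) ≤ E 0 * (1 / ((j : ℝ) + 1)) :=
        mul_le_mul_of_nonneg_left (by linarith [hc2 j]) hE
      have h3 := mul_le_mul_of_nonneg_right h2 hn.le
      nlinarith) (by
      intro j
      filter_upwards [eventually_gt_of_lt_ul (DMc.info_UB (hl' j).1) (hlt j)] with k hk
      rw [hinfo j]
      have : 0 ≤ ((E 0 : ℝ) + 2) * (1 / ((j : ℝ) + 1)) := by positivity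
      linarith)
  have := (s.kap_isKap c).2 y hy
  linarith

/-- RIGHT CONTINUITY of the entropies over `kappa_c`, uniformly in the variable -/
theorem H_right [Countable ι] (s : MSys S M E ι) (c : ℝ) {ε : ℝ} (hε : 0 < ε) :
    ∃ δ : ℝ, 0 < δ ∧ ∀ c', c ≤ c' → c' < c + δ → ∀ l l' : Lab S, s.IsKap c l → s.IsKap c' l' → ∀ X : S.L,
      H (up1 l' X) ≤ H (up1 l X) ∧ H (up1 l X) - ε ≤ H (up1 l' X) := by
  obtain ⟨δ, hδ, h⟩ := info_right s c hε
  refine ⟨δ, hδ, fun c' a b l l' hl hl' X => ⟨H_anti_win a hl.1 hl' X, ?_⟩⟩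
  have h1 := H_win_ge a hl.1 hl' X
  have h2 := h c' a b l l' hl hl'
  linarith

/-- RIGHT CONTINUITY of the conditional entropies over `kappa_c` -/
theorem h_right [Countable ι] (s : MSys S M E ι) (c : ℝ) {ε : ℝ} (hε : 0 < ε) :
    ∃ δ : ℝ, 0 < δ ∧ ∀ c', c ≤ c' → c' < c + δ → ∀ l l' : Lab S, s.IsKap c l → s.IsKap c' l' → ∀ X Y : S.L,
      h (up1 l' X) (up1 l' Y) ≤ h (up1 l X) (up1 l Y) ∧ h (up1 l X) (up1 l Y) - ε ≤ h (up1 l' X) (up1 l' Y) := by
  obtain ⟨δ, hδ, h⟩ := info_right s c hε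
  refine ⟨δ, hδ, fun c' a b l l' hl hl' X Y => ⟨h_anti_win a hl.1 hl' X Y, ?_⟩⟩
  have h1 := h_win_ge a hl.1 hl' X Y
  have h2 := h c' a b l l' hl hl'
  linarith

/-- RIGHT CONTINUITY of the volume -/
theorem vol_right [Finite ι] (s : MSys S M E ι) (D : ℕ) (c : ℝ) {ε : ℝ} (hε : 0 < ε) :
    ∃ δ : ℝ, 0 < δ ∧ ∀ c', c ≤ c' → c' < c + δ → s.vol D c' ≤ s.vol D c ∧ s.vol D c - ε ≤ s.vol D c' := by
  suffices hs : ∃ δ : ℝ, 0 < δ ∧ ∀ c', c ≤ c' → c' < c + δ → s.vol D c - ε ≤ s.vol D c' by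
    obtain ⟨δ, hδ, h⟩ := hs
    exact ⟨δ, hδ, fun c' a b => ⟨s.vol_anti D a, h c' a b⟩⟩
  by_contra hcon
  push Not at hcon
  have h1 : ∀ j : ℕ, ∃ c' : ℝ, c ≤ c' ∧ c' < c + 1 / ((j : ℝ) + 1) / (2 * ((E 0 : ℝ) + 1)) ∧
      s.vol D c' < s.vol D c - ε := by
    intro j
    obtain ⟨c', a, b, d⟩ := hcon (1 / ((j : ℝ) + 1) / (2 * ((E 0 : ℝ) + 1))) (by positivity)
    exact ⟨c', a, b, d⟩
  choose c' hc1 hc2 hlt using h1
  have h2 : ∀ j, ∃ x, s.IsCan D (c' j) x := fun j => s.exists_can D (c' j)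
  choose x hx using h2
  have hE : (0 : ℝ) ≤ E 0 := Nat.cast_nonneg _
  set W : ℝ := M - (s.vol D c - ε) with hW
  obtain ⟨y, J, hJ, hy, hP⟩ := Gau.diagf (gaq s.Q D) (s.cnd c) x (fun _ k z =>
      W ≤ ∑ ω, z.l.T.μ ω * Pool.Agent.Helper14.MC.gx s.Q k (z.l.p.π ω) (z.g ω)) (by
    intro j
    have hj : (0 : ℝ) < 1 / ((j : ℝ) + 1) := by positivity
    have hj4 : (0 : ℝ) < 1 / ((j : ℝ) + 1) / 4 := by positivity
    have hv : W < ul (Pool.Agent.Helper14.MC.vx s.Q (x j)) := by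
      have a1 := hlt j
      rw [← s.vol_eq (hx j).1, Pool.Agent.Helper14.MC.vol_eq] at a1
      linarith
    have hl : ∀ᶠ k in UF, ∀ i, ∀ l : FLab (S.F k), l.leak (s.cnd c i k) ≤
        l.leak (s.cnd (c' j) i k) + (E 0 * (c' j - c) + 1 / ((j : ℝ) + 1) / 4) * (S.F k).n := by
      rw [eventually_all]
      exact fun i => leak_win s i (hc1 j) hj4
    filter_upwards [(hx j).1.1 _ hj4, hl, eventually_gt_of_lt_ul (Pool.Agent.Helper14.MC.vx_UB (hx j).1.1) hv]
      with k a b d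
    have hn := (S.F k).pos
    have a' := Gau.Admf.mono (gaq s.Q D) (show 1 / ((j : ℝ) + 1) / 4 ≤ 1 / ((j : ℝ) + 1) by linarith) a
    refine ⟨⟨fun i => ?_, a'.2⟩, d.le⟩
    refine (b i (x j k).l).trans ?_
    have h3 := a.1 i
    have h4 : (E 0 : ℝ) * (c' j - c) ≤ 1 / ((j : ℝ) + 1) / 2 := by
      have h5 : c' j - c ≤ 1 / ((j : ℝ) + 1) / (2 * ((E 0 : ℝ) + 1)) := by linarith [hc2 j]
      calc (E 0 : ℝ) * (c' j - c) ≤ ((E 0 : ℝ) + 1) * (1 / ((j : ℝ) + 1) / (2 * ((E 0 : ℝ) + 1))) := by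
            refine mul_le_mul (by linarith) h5 (by linarith [hc1 j]) (by linarith)
        _ = 1 / ((j : ℝ) + 1) / 2 := by
            field_simp
    have h6 := mul_le_mul_of_nonneg_right h4 hn.le
    nlinarith)
  have h7 := s.vol_le_of hy
  rw [Pool.Agent.Helper14.MC.vol_eq] at h7
  have h8 : W ≤ ul (Pool.Agent.Helper14.MC.vx s.Q y) := by
    have h9 := ul_mono (UB_const W) (Pool.Agent.Helper14.MC.vx_UB hy) hP
    rwa [ul_const] at h9
  linarith

end

end Pool.Agent.Helper91.RAT
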